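import Pool.Agent.Y817.BC.Stm

set_option autoImplicit false

/-!
# Project BC: Baire measurable solutions from labelings of environments
-/

open Set

namespace Pool.Agent.Y972.BC

open Pool.Agent.Y817.BC

/-- BFIN -/
theorem BFin.t (hC : StmCenters) : StmBFin := by
  intro L _ rel ρ Φ F hΦ hE hF X _ _ _ _ act hz ha hm hfree
  classical
  obtain ⟨A, hAm, hAs, hAr⟩ := hC X act hz ha hm hfree ρ
  let X0 : Set X := {x | ∀ g, ∃ k, act g x ∈ A k}
  let Env : X → ℕ → G → Bool := fun x k c => decide (act c x ∈ A k)
  have hinv : ∀ a x, x ∈ X0 → act a x ∈ X0 := by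
    intro a x hx g
    obtain ⟨k, hk⟩ := hx (g + a)
    exact ⟨k, by rw [← ha]; exact hk⟩
  have hneg : ∀ a x, act (-a) (act a x) = x := by
    intro a x
    rw [← ha, neg_add_cancel, hz]
  have hinv' : ∀ a x, act a x ∈ X0 → x ∈ X0 := by
    intro a x hx
    have := hinv (-a) _ hx
    rwa [hneg] at this
  have huniq : ∀ a b x, act a x = act b x → a = b := by
    intro a b x h
    have h1 : act (a - b) (act b x) = act b x := by
      rw [← ha, sub_add_cancel, h]
    exact sub_eq_zero.1 (hfree _ _ h1)
  let s : Setoid X :=
    { r := fun x y => ∃ g, act g y = x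
      iseqv :=
        { refl := fun x => ⟨0, hz x⟩
          symm := by
            rintro x y ⟨g, rfl⟩
            exact ⟨-g, hneg g y⟩
          trans := by
            rintro x y z ⟨g, rfl⟩ ⟨g', rfl⟩
            exact ⟨g + g', ha g g' z⟩ } }
  let rep : X → X := fun x => (Quotient.mk s x).out
  have hrep : ∀ x, ∃ g, act g (rep x) = x := by
    intro x
    have h1 : s.r (rep x) x := Quotient.exact (Quotient.out_eq (Quotient.mk s x))
    exact s.iseqv.symm h1
  have hrepa : ∀ g x, rep (act g x) = rep x := by
    intro g x
    have : Quotient.mk s (act g x) = Quotient.mk s x := Quotient.sound ⟨g, rfl⟩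
    show (Quotient.mk s (act g x)).out = (Quotient.mk s x).out
    rw [this]
  choose gg hgg using hrep
  have hgga : ∀ g x, gg (act g x) = g + gg x := by
    intro g x
    apply huniq _ _ (rep x)
    have h1 := hgg (act g x)
    rw [hrepa] at h1
    rw [h1, ha, hgg]
  refine ⟨fun x => if x ∈ X0 then Φ (Env x) else F (gg x), ?_, ?_⟩
  · intro l
    have hEm : Measurable Env := by
      refine measurable_pi_lambda _ fun k => measurable_pi_lambda _ fun c => ?_
      refine measurable_to_bool ?_
      have : (fun x => Env x k c) ⁻¹' {true} = act c ⁻¹' (A k) := by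
        ext x
        simp [Env]
      rw [this]
      exact hm c (hAm k)
    have h1 : MeasurableSet (Env ⁻¹' (Φ ⁻¹' {l})) := hEm (hΦ l)
    obtain ⟨u, hu, h2⟩ := h1.residualEq_isOpen
    refine ⟨u, hu, ?_⟩
    refine Filter.EventuallyEq.trans ?_ h2
    rw [Filter.eventuallyEq_set]
    filter_upwards [hAr] with x hx
    have hx' : x ∈ X0 := hx
    simp only [Set.mem_preimage, Set.mem_singleton_iff, if_pos hx']
  · intro x
    by_cases hx : x ∈ X0
    · have h1 : (fun g => (fun x => if x ∈ X0 then Φ (Env x) else F (gg x)) (act g x)) =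
          fun g => Φ (fun k c => Env x k (c + g)) := by
        funext g
        simp only [if_pos (hinv g x hx)]
        congr 1
        funext k c
        simp only [Env, ha]
      rw [h1]
      refine hE (Env x) ?_ ?_
      · intro k c c' hc hc' hn
        have h2 : act c x ∈ A k := by simpa [Env] using hc
        have h3 : act c' x ∈ A k := by simpa [Env] using hc'
        have h4 : act (c - c') (act c' x) = act c x := by
          rw [← ha, sub_add_cancel]
        exact sub_eq_zero.1 (hAs k (act c' x) (c - c') h3 (by rw [h4]; exact h2) hn)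
      · intro g
        obtain ⟨k, hk⟩ := hx g
        exact ⟨k, by simpa [Env] using hk⟩
    · have h1 : (fun g => (fun x => if x ∈ X0 then Φ (Env x) else F (gg x)) (act g x)) =
          fun g => F (g + gg x) := by
        funext g
        simp only [if_neg (fun h => hx (hinv' g x h)), hgga]
      rw [h1]
      exact hF (gg x)

end Pool.Agent.Y972.BC
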