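import Pool.Agent.Y817.BC.Stm

set_option autoImplicit false

/-!
# Project BC: generic centres for a free Borel action
-/

open Set TopologicalSpace

namespace Pool.Agent.Y972.BC

open Pool.Agent.Y817.BC

theorem finite_ball (r : ℕ) : {c : G | nn c ≤ r}.Finite := by
  refine (Set.finite_Icc (fun _ => -(r : ℤ) : G) (fun _ => (r : ℤ))).subset ?_
  intro c hc
  rw [mem_ofPred_eq, nn, Finset.sup_le_iff] at hc
  rw [Set.mem_Icc]
  constructor
  · intro i
    have := hc i (Finset.mem_univ i)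
    simp only
    omega
  · intro i
    have := hc i (Finset.mem_univ i)
    simp only
    omega

theorem cover {X : Type} [TopologicalSpace X] [PolishSpace X] [MeasurableSpace X]
    [BorelSpace X] [Nonempty X] (act : G → X → X) (hm : ∀ γ, Measurable (act γ))
    (hfree : ∀ γ x, act γ x = x → γ = 0) (r : ℕ) :
    ∃ U : ℕ → Set X, (∀ i, MeasurableSet (U i)) ∧ (∀ x, ∃ i, x ∈ U i) ∧
      ∀ i x c, x ∈ U i → act c x ∈ U i → nn c ≤ r → c = 0 := by
  classical
  let Fc := {c : G // nn c ≤ r ∧ c ≠ 0}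
  have hfin : Finite Fc := ((finite_ball r).subset (fun c hc => hc.1)).to_subtype
  let b := countableBasis X
  have hbc : Countable b := (countable_countableBasis X).to_subtype
  have hb := isBasis_countableBasis X
  let V : (Fc → b × b) → Set X := fun φ => ⋂ c : Fc,
    {x | x ∈ ((φ c).1 : Set X) ∧ act c.1 x ∈ ((φ c).2 : Set X) ∧
      Disjoint ((φ c).1 : Set X) ((φ c).2 : Set X)}
  have hV : ∀ x, ∃ φ, x ∈ V φ := by
    intro x
    have h1 : ∀ c : Fc, ∃ p : b × b, x ∈ (p.1 : Set X) ∧ act c.1 x ∈ (p.2 : Set X) ∧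
        Disjoint (p.1 : Set X) (p.2 : Set X) := by
      intro c
      have hne : x ≠ act c.1 x := fun h => c.2.2 (hfree _ _ h.symm)
      obtain ⟨u, v, hu, hv, hxu, hxv, huv⟩ := t2_separation hne
      obtain ⟨o, ho, hxo, hou⟩ := hb.exists_subset_of_mem_open hxu hu
      obtain ⟨o', ho', hxo', hov⟩ := hb.exists_subset_of_mem_open hxv hv
      exact ⟨(⟨o, ho⟩, ⟨o', ho'⟩), hxo, hxo', huv.mono hou hov⟩
    choose φ hφ using h1
    exact ⟨φ, Set.mem_iInter.2 hφ⟩
  obtain ⟨x₀⟩ := ‹Nonempty X›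
  obtain ⟨φ₀, -⟩ := hV x₀
  have : Nonempty (Fc → b × b) := ⟨φ₀⟩
  obtain ⟨enum, henum⟩ := exists_surjective_nat (Fc → b × b)
  refine ⟨fun i => V (enum i), ?_, ?_, ?_⟩
  · intro i
    refine MeasurableSet.iInter fun c => ?_
    refine MeasurableSet.inter (hb.isOpen (enum i c).1.2).measurableSet ?_
    exact MeasurableSet.inter (hm c.1 (hb.isOpen (enum i c).2.2).measurableSet)
      (MeasurableSet.const _)
  · intro x
    obtain ⟨φ, hφ⟩ := hV x
    obtain ⟨i, rfl⟩ := henum φ
    exact ⟨i, hφ⟩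
  · intro i x c hx hcx hc
    by_contra h0
    have h1 := Set.mem_iInter.1 hx ⟨c, hc, h0⟩
    have h2 := Set.mem_iInter.1 hcx ⟨c, hc, h0⟩
    exact Set.disjoint_left.1 h1.2.2 h2.1 h1.2.1

/-- CENTERS -/
theorem Centers.t : StmCenters := by
  intro X _ _ _ _ act hz ha hm hfree ρ
  classical
  rcases isEmpty_or_nonempty X with hX | hX
  · refine ⟨fun _ => ∅, fun _ => MeasurableSet.empty, fun _ x => isEmptyElim x, ?_⟩
    have : {x : X | ∀ g, ∃ _k : ℕ, act g x ∈ (∅ : Set X)} = Set.univ :=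
      Set.eq_univ_of_forall fun x => isEmptyElim x
    rw [this]
    exact Filter.univ_mem
  · choose U hUm hUc hUs using fun k => cover act hm hfree (2 * ρ k + 1)
    let b := countableBasis X
    have hbc : Countable b := (countable_countableBasis X).to_subtype
    have hb := isBasis_countableBasis X
    have : Nonempty b := by
      obtain ⟨x₀⟩ := hX
      obtain ⟨o, ho, -, -⟩ := hb.exists_subset_of_mem_open (Set.mem_univ x₀) isOpen_univ
      exact ⟨⟨o, ho⟩⟩
    obtain ⟨enum, henum⟩ := exists_surjective_nat (G × b)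
    have hsel : ∀ k, ∃ i, ¬ IsMeagre (act (enum k).1 ⁻¹' (U k i) ∩ ((enum k).2 : Set X)) := by
      intro k
      by_contra hcon
      push Not at hcon
      have h1 := isMeagre_iUnion hcon
      have h2 : ((enum k).2 : Set X) ⊆
          ⋃ i, (act (enum k).1 ⁻¹' (U k i) ∩ ((enum k).2 : Set X)) := by
        intro x hx
        obtain ⟨i, hi⟩ := hUc k (act (enum k).1 x)
        exact Set.mem_iUnion.2 ⟨i, hi, hx⟩
      refine not_isMeagre_of_isOpen (hb.isOpen (enum k).2.2) ?_ (h1.mono h2)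
      rw [Set.nonempty_iff_ne_empty]
      intro h
      have := (enum k).2.2
      rw [h] at this
      exact empty_notMem_countableBasis X this
    choose i hi using hsel
    refine ⟨fun k => U k (i k), fun k => hUm _ _, fun k x c h1 h2 h3 => hUs k (i k) x c h1 h2 h3,
      ?_⟩
    have heq : {x : X | ∀ g, ∃ k, act g x ∈ U k (i k)} =
        ⋂ g : G, ⋃ k, act g ⁻¹' (U k (i k)) := by
      ext x
      simp only [mem_ofPred_eq, Set.mem_iInter, Set.mem_iUnion, Set.mem_preimage]
    rw [heq, countable_iInter_mem]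
    intro g
    have hDm : MeasurableSet (⋃ k, act g ⁻¹' (U k (i k))) :=
      MeasurableSet.iUnion fun k => hm g (hUm _ _)
    obtain ⟨u, hu, huD⟩ := hDm.compl.residualEq_isOpen
    have hev : ∀ᶠ x in residual X, (x ∈ (⋃ k, act g ⁻¹' (U k (i k)))ᶜ ↔ x ∈ u) :=
      Filter.eventuallyEq_set.1 huD
    have hue : u = ∅ := by
      by_contra hne
      obtain ⟨x, hx⟩ := Set.nonempty_iff_ne_empty.2 hne
      obtain ⟨o, ho, hxo, hou⟩ := hb.exists_subset_of_mem_open hx hu
      obtain ⟨k, hk⟩ := henum (g, ⟨o, ho⟩)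
      apply hi k
      rw [hk]
      refine IsMeagre.mono (s := {x | ¬ (x ∈ (⋃ k, act g ⁻¹' (U k (i k)))ᶜ ↔ x ∈ u)}) ?_ ?_
      · rintro y ⟨hy1, hy2⟩ hy3
        exact (hy3.2 (hou hy2)) (Set.mem_iUnion.2 ⟨k, hy1⟩)
      · unfold IsMeagre
        have : {x | ¬ (x ∈ (⋃ k, act g ⁻¹' (U k (i k)))ᶜ ↔ x ∈ u)}ᶜ =
            {x | (x ∈ (⋃ k, act g ⁻¹' (U k (i k)))ᶜ ↔ x ∈ u)} := by
          ext y
          simp only [Set.mem_compl_iff, mem_ofPred_eq, not_not]
        rw [this]
        exact hev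
    filter_upwards [hev] with x hx
    rw [hue] at hx
    by_contra hcon
    exact (hx.1 hcon)

end Pool.Agent.Y972.BC
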