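import Pool.Agent.Y817.BC.Stm
import Pool.Agent.Y972.BC.Centers

set_option autoImplicit false

/-!
# Project BC: assembly of the labeling of environments
-/

open Set

namespace Pool.Agent.Y972.BC.Env

open Pool.Agent.Y817.BC

theorem nn_le {c : G} {r : ℕ} : nn c ≤ r ↔ ∀ i, (c i).natAbs ≤ r := by
  rw [nn, Finset.sup_le_iff]
  exact ⟨fun h i => h i (Finset.mem_univ i), fun h i _ => h i⟩

theorem nn_toG (d : Fin 3 → Fin 21) : nn (toG d) ≤ 10 := by
  rw [nn_le]
  intro i
  have h := (d i).isLt
  simp only [toG]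
  omega

theorem nn_zero : nn (0 : G) ≤ 10 := by
  rw [nn_le]
  intro i
  simp

theorem OK_congr {L : Type} {rel : Fin 3 → L → L → Prop} {F F' : G → Lab L}
    (h : ∀ g, nn g ≤ 10 → F g = F' g) (hF : OK rel F') : OK rel F := by
  have h0 : F 0 = F' 0 := h 0 nn_zero
  have h1 : ∀ i, F (toG ((F' 0).1 i)) = F' (toG ((F' 0).1 i)) := fun i => h _ (nn_toG _)
  refine ⟨fun i j => ?_, fun i => ?_⟩
  · rw [h0, h1 i, h1 j]
    exact hF.1 i j
  · rw [h0, h1 i]
    exact hF.2 i

theorem nice_shift {h : G → G} (hn : Nice h) (x : G) : Nice (fun z => h (z + x)) := by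
  refine ⟨fun x' i => ?_, fun x' y i hh => ?_⟩
  · obtain ⟨y, hy⟩ := hn.1 (x' + x) i
    refine ⟨y - x, ?_⟩
    simp only [sub_add_cancel]
    exact hy
  · have := hn.2 (x' + x) (y + x) i hh
    rwa [add_sub_add_right_eq_sub] at this

/-- the truncated environment -/
def Et (p : Par) (E : ℕ → G → Bool) (j : ℕ) : ℕ → G → Prop := fun k c =>
  k < j ∧ E k c = true ∧ nn c ≤ p.R j + 10 ∧
    Disc (p.ρ k) (fun c' => E k c' = true ∧ nn c' ≤ p.R j + 10)

theorem Et_disc (p : Par) (E : ℕ → G → Bool) (j : ℕ) (k : ℕ) : Disc (p.ρ k) (Et p E j k) :=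
  fun c c' h h' hn => h.2.2.2 c c' ⟨h.2.1, h.2.2.1⟩ ⟨h'.2.1, h'.2.2.1⟩ hn

theorem Et_congr (p : Par) (E E' : ℕ → G → Bool) (j : ℕ)
    (h : ∀ k < j, ∀ c, nn c ≤ p.R j + 10 → E k c = E' k c) : Et p E j = Et p E' j := by
  funext k c
  apply propext
  have hd : ∀ {k}, k < j → (fun c' => E k c' = true ∧ nn c' ≤ p.R j + 10) =
      (fun c' => E' k c' = true ∧ nn c' ≤ p.R j + 10) := by
    intro k hk
    funext c'
    apply propext
    constructor
    · rintro ⟨h1, h2⟩
      exact ⟨by rw [← h k hk c' h2]; exact h1, h2⟩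
    · rintro ⟨h1, h2⟩
      exact ⟨by rw [h k hk c' h2]; exact h1, h2⟩
  constructor
  · rintro ⟨h1, h2, h3, h4⟩
    refine ⟨h1, ?_, h3, ?_⟩
    · rw [← h k h1 c h3]; exact h2
    · rw [← hd h1]; exact h4
  · rintro ⟨h1, h2, h3, h4⟩
    refine ⟨h1, ?_, h3, ?_⟩
    · rw [h k h1 c h3]; exact h2
    · rw [hd h1]; exact h4

open Classical in
/-- the labeling -/
noncomputable def PhiE {L : Type} (p : Par) (ψ : (G → G) → Lab L) (E : ℕ → G → Bool) : Lab L :=
  if h : ∃ j, E j 0 = true then
    ψ (coord (W p (Et p E (Nat.find h)) (Nat.find h) (fun _ _ => 0)))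
  else ψ (coord (fun _ _ => 0))

theorem PhiE_of {L : Type} (p : Par) (ψ : (G → G) → Lab L) (E : ℕ → G → Bool) (j : ℕ)
    (hj : E j 0 = true) (hj' : ∀ i < j, E i 0 = false) :
    PhiE p ψ E = ψ (coord (W p (Et p E j) j (fun _ _ => 0))) := by
  have h : ∃ j, E j 0 = true := ⟨j, hj⟩
  have hf : ∀ (inst : DecidablePred fun j => E j 0 = true), @Nat.find _ inst h = j := by
    intro inst
    rw [Nat.find_eq_iff]
    refine ⟨hj, fun i hi => ?_⟩
    rw [hj' i hi]
    simp
  unfold PhiE
  rw [dif_pos h, hf]

theorem meas (hM : StmMeas) {L : Type} (p : Par) (ψ : (G → G) → Lab L) (l : Lab L) :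
    MeasurableSet (PhiE p ψ ⁻¹' {l}) := by
  classical
  have hfin : {c : G | nn c ≤ p.R 0 + 10}.Finite := finite_ball _
  have h1 : PhiE p ψ ⁻¹' {l} =
      (⋃ j : ℕ, {E | (E j 0 = true ∧ (∀ i < j, E i 0 = false) ∧
        ψ (coord (W p (Et p E j) j (fun _ _ => 0))) = l) = True}) ∪
      ((⋂ j : ℕ, {E : ℕ → G → Bool | (E j 0) = false}) ∩
        {_E | ψ (coord (fun _ _ => 0)) = l}) := by
    ext E
    simp only [Set.mem_preimage, Set.mem_singleton_iff, Set.mem_union, Set.mem_iUnion,
      Set.mem_inter_iff, Set.mem_iInter, mem_ofPred_eq, eq_iff_iff, iff_true]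
    by_cases h : ∃ j, E j 0 = true
    · have hj := Nat.find_spec h
      have hj' : ∀ i < Nat.find h, E i 0 = false := by
        intro i hi
        have := Nat.find_min h hi
        simpa using this
      rw [PhiE_of p ψ E _ hj hj']
      constructor
      · intro hl
        exact Or.inl ⟨_, hj, hj', hl⟩
      · rintro (⟨j, h2, h3, h4⟩ | ⟨h2, -⟩)
        · have : Nat.find h = j := by
            rw [Nat.find_eq_iff]
            refine ⟨h2, fun i hi => ?_⟩
            rw [h3 i hi]
            simp
          rw [this]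
          exact h4
        · exact absurd (hj.symm.trans (h2 _)) (by simp)
    · unfold PhiE
      rw [dif_neg h]
      push Not at h
      constructor
      · intro hl
        refine Or.inr ⟨fun j => ?_, hl⟩
        have := h j
        simpa using this
      · rintro (⟨j, h2, -⟩ | ⟨-, h2⟩)
        · exact absurd h2 (h j)
        · exact h2
  rw [h1]
  refine MeasurableSet.union (MeasurableSet.iUnion fun j => ?_)
    (MeasurableSet.inter (MeasurableSet.iInter fun j => ?_) (MeasurableSet.const _))
  · have hfin : {c : G | nn c ≤ p.R j + 10}.Finite := finite_ball _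
    refine hM Prop (fun E => (E j 0 = true ∧ (∀ i < j, E i 0 = false) ∧
        ψ (coord (W p (Et p E j) j (fun _ _ => 0))) = l))
      (Finset.range (j + 1) ×ˢ hfin.toFinset) ?_ True
    intro E E' hEE
    have hk : ∀ k < j + 1, ∀ c, nn c ≤ p.R j + 10 → E k c = E' k c := by
      intro k hk c hc
      refine hEE (k, c) ?_
      rw [Finset.mem_product]
      exact ⟨Finset.mem_range.2 hk, by simpa using hc⟩
    have h0 : ∀ k < j + 1, E k 0 = E' k 0 := by
      intro k hk'
      refine hk k hk' 0 ?_
      have := nn_zero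
      omega
    have hEt : Et p E j = Et p E' j := Et_congr p E E' j fun k hk' c hc => hk k (by omega) c hc
    apply propext
    rw [hEt, h0 j (by omega)]
    constructor
    · rintro ⟨a, b, c⟩
      exact ⟨a, fun i hi => by rw [← h0 i (by omega)]; exact b i hi, c⟩
    · rintro ⟨a, b, c⟩
      exact ⟨a, fun i hi => by rw [h0 i (by omega)]; exact b i hi, c⟩
  · refine hM Bool (fun E => E j 0) {(j, 0)} ?_ false
    intro E E' hEE
    exact hEE (j, 0) (Finset.mem_singleton_self _)

/-- ENV -/
theorem t (h1 : StmPsi) (h2 : StmFloor) (h3 : StmLocA) (h4 : StmLocB) (h5 : StmPar)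
    (h6 : StmFin) (h7 : StmMeas) : StmEnv := by
  classical
  intro L rel T hT hTo
  obtain ⟨ψ, hψ1, hψ2⟩ := h1 L rel T hT
  obtain ⟨p, hp⟩ := h5 L T hTo
  refine ⟨p.ρ, PhiE p ψ, meas h7 p ψ, ?_, ?_⟩
  · intro E hE hcov
    -- the final labeling
    have hEP : ∀ k, Disc (p.ρ k) ((fun k c => E k c = true : ℕ → G → Prop) k) := hE
    let EP : ℕ → G → Prop := fun k c => E k c = true
    let jj : G → ℕ := fun g => Nat.find (hcov g)
    have hjj : ∀ g, E (jj g) g = true := fun g => Nat.find_spec (hcov g)
    have hjj' : ∀ g, ∀ i < jj g, E i g = false := by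
      intro g i hi
      have := Nat.find_min (hcov g) hi
      simpa using this
    let Vg : G → G → Fin 3 → ℝ := fun g => W p EP (jj g) (fun _ i => (g i : ℝ))
    -- first step
    have stepA : ∀ g, PhiE p ψ (fun k c => E k (c + g)) =
        ψ (fun x => coord (Vg g) (x + g)) := by
      intro g
      rw [PhiE_of p ψ (fun k c => E k (c + g)) (jj g) (by simpa using hjj g)
        (by simpa using hjj' g)]
      refine hψ2 _ _ 0 ?_ (by rw [add_zero])
      intro d hd
      rw [add_zero]
      have hdisc : ∀ k, Disc (p.ρ k) ((fun k c => E k (c + g) = true : ℕ → G → Prop) k) := by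
        intro k c c' hc hc' hn
        have := hE k (c + g) (c' + g) hc hc' (by rwa [add_sub_add_right_eq_sub])
        exact add_right_cancel this
      have hA1 : ∀ i, W p (Et p (fun k c => E k (c + g)) (jj g)) (jj g) (fun _ _ => 0) d i =
          W p (fun k c => E k (c + g) = true) (jj g) (fun _ _ => 0) d i := by
        intro i
        have := (h3 p (fun k c => E k (c + g) = true) (Et p (fun k c => E k (c + g)) (jj g))
          hp.P_pos hdisc (Et_disc p _ _)).1 (jj g) (fun _ _ => 0) (fun _ _ => 0) d 0
          (fun k _ i => by simp) ?_ (fun y _ i => by simp) i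
        · simpa using this
        · intro k hk c hc
          have hc10 : nn c ≤ p.R (jj g) + 10 := by
            rw [nn_le] at hc hd ⊢
            intro i
            have a1 := hc i
            have a2 := hd i
            simp only [Pi.sub_apply] at a1
            omega
          constructor
          · intro h
            refine ⟨hk, h, hc10, ?_⟩
            intro a b ha hb hn
            exact hdisc k a b ha.1 hb.1 hn
          · intro h
            exact h.2.1
      have hA2 : ∀ i, W p (fun k c => E k (c + g) = true) (jj g) (fun _ _ => 0) d i =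
          Vg g (d + g) i - g i := by
        intro i
        have := (h3 p EP EP hp.P_pos hEP hEP).2 g (jj g) (fun _ i => (g i : ℝ)) d i
        simp only [sub_self] at this
        exact this
      funext j
      simp only [coord]
      rw [hA1, hA2]
      congr 2
      simp only [Pi.add_apply]
      push_cast
      ring
    -- common displacement
    have hfin : {c : G | nn c ≤ 10}.Finite := finite_ball _
    let J : ℕ := hfin.toFinset.sup jj + 1
    have hJ : ∀ g, nn g ≤ 10 → jj g < J := by
      intro g hg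
      have : jj g ≤ hfin.toFinset.sup jj :=
        Finset.le_sup (f := jj) (by simpa using hg)
      omega
    let V : G → Fin 3 → ℝ := W p EP J (fun _ _ => 0)
    have stepB : ∀ g, nn g ≤ 10 → PhiE p ψ (fun k c => E k (c + g)) =
        ψ (fun x => coord V (x + g)) := by
      intro g hg
      rw [stepA g]
      symm
      have hIρ : ∀ k, p.I k < p.ρ k := by
        intro k
        have a1 := hp.I_le k
        have a2 := hp.I_eq k
        omega
      obtain ⟨lam, hlam1, hlam2⟩ := h4 p EP hp.P_pos hp.P_dvd hIρ hEP J (jj g) g (fun _ _ => 0)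
        (hJ g hg) (hjj g)
      have hd4 : ∀ i, ∃ m : ℤ, lam i = 4 * (((p.P (jj g) / 4 : ℕ) : ℤ) * m) := by
        intro i
        obtain ⟨m, hm⟩ := hlam1 i
        refine ⟨m, ?_⟩
        obtain ⟨a, ha⟩ := hp.P_four (jj g)
        rw [hm, ha, Nat.mul_div_cancel_left _ (by norm_num)]
        push_cast
        ring
      choose m hm using hd4
      have hper := hp.per (jj g) (coord (Vg g) (0 + g)) ?_ (fun i => - m i)
      · refine hψ2 _ _ (((p.P (jj g) / 4 : ℕ) : ℤ) • (fun i => - m i : G)) ?_ hper
        intro d hd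
        have hx : nn (d + g - g) + p.R (jj g) ≤ p.I (jj g) := by
          rw [add_sub_cancel_right, hp.I_eq]
          omega
        have hV : ∀ i, V (d + g) i = Vg g (d + g) i + lam i := hlam2 (d + g) hx
        funext i
        simp only [coord, Pi.add_apply, Pi.smul_apply, smul_eq_mul]
        rw [hV i, hm i]
        have : ((((d i + g i : ℤ)) : ℝ) - (Vg g (d + g) i +
            ((4 * (((p.P (jj g) / 4 : ℕ) : ℤ) * m i) : ℤ) : ℝ))) / 4 =
            ((((d i + g i : ℤ)) : ℝ) - Vg g (d + g) i) / 4 +
              ((((p.P (jj g) / 4 : ℕ) : ℤ) * (- m i) : ℤ) : ℝ) := by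
          push_cast
          ring
        rw [this, Int.floor_add_intCast]
      · rw [nn_le]
        intro i
        have hb := (h6 L T p hp EP hEP (jj g) g).2 (0 + g) i
        simp only [coord]
        have hb' : |(((0 + g : G) i : ℤ) : ℝ) - Vg g (0 + g) i| ≤ p.S (jj g) := by
          rw [abs_sub_comm, zero_add]
          rw [zero_add] at hb
          exact hb
        set z : ℝ := (((0 + g : G) i : ℤ) : ℝ) - Vg g (0 + g) i with hz
        have hz1 := abs_le.1 hb'
        have hS : (0 : ℝ) ≤ p.S (jj g) := by positivity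
        have h8 : -((p.S (jj g) : ℤ) + 1) ≤ ⌊z / 4⌋ := by
          rw [Int.le_floor]
          push_cast
          linarith [hz1.1]
        have h9 : ⌊z / 4⌋ ≤ (p.S (jj g) : ℤ) + 1 := by
          have : ((⌊z / 4⌋ : ℤ) : ℝ) ≤ ((p.S (jj g) : ℤ) + 1 : ℤ) := by
            have := Int.floor_le (z / 4)
            push_cast
            linarith [hz1.2]
          exact_mod_cast this
        omega
    refine OK_congr (fun g hg => stepB g hg) (hψ1 (coord V) (h2 V ?_))
    have := (h6 L T p hp EP hEP J 0).1
    simpa using this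
  · refine ⟨fun g => ψ (fun y => coord (fun _ _ => 0) (y + g)), fun x => ?_⟩
    have hN : Nice (coord (fun _ _ => 0)) := by
      refine h2 _ ?_
      intro x i j
      simp
    have := hψ1 _ (nice_shift hN x)
    have heq : (fun g => (fun g => ψ (fun y => coord (fun _ _ => 0) (y + g))) (g + x)) =
        fun g => ψ (fun y => (fun z => coord (fun _ _ => 0) (z + x)) (y + g)) := by
      funext g
      simp only
      congr 1
      funext y
      congr 1
      abel
    rw [heq]
    exact this

end Pool.Agent.Y972.BC.Env
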